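import Pool.Agent.MP_3ee8cb_gt.D3.Spec

/-! A global orthonormal frame of class `C²`. -/

namespace Pool.Agent.MP_3ee8cb_gt.D3.FR

open CR (Met Riem)
open scoped RealInnerProductSpace

noncomputable section

variable {h : Met 3}

/-- Normalisation of a vector field. -/
def nrm (h : Met 3) (w : V → V) (y : V) : V := (√(h y (w y) (w y)))⁻¹ • w y

theorem nrm_c2 (r : Riem h) {w : V → V} (hw : ContDiff ℝ 2 w) (h0 : ∀ y, w y ≠ 0) :
    ContDiff ℝ 2 (nrm h w) :=
  ((((r.smooth.clm_apply hw).clm_apply hw).sqrt fun y => (r.pos y _ (h0 y)).ne').inv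
    fun y => (Real.sqrt_pos.2 (r.pos y _ (h0 y))).ne').smul hw

theorem nrm_one (r : Riem h) {w : V → V} {y : V} (h0 : w y ≠ 0) :
    h y (nrm h w y) (nrm h w y) = 1 := by
  have hp := r.pos y _ h0
  have h2 := Real.mul_self_sqrt hp.le
  have h3 := (Real.sqrt_pos.2 hp).ne'
  simp only [nrm, map_smul, smul_apply, smul_eq_mul]
  field_simp
  rw [Real.sq_sqrt hp.le]

theorem nrm_orth {w : V → V} {y u : V} (h0 : h y (w y) u = 0) : h y (nrm h w y) u = 0 := by
  simp only [nrm, map_smul, smul_apply, smul_eq_mul, h0, mul_zero]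

/-- The standard basis. -/
def e (i : Fin 3) : V := EuclideanSpace.single i 1

def u0 (h : Met 3) : V → V := nrm h fun _ => e 0
def w1 (h : Met 3) (y : V) : V := e 1 - h y (e 1) (u0 h y) • u0 h y
def u1 (h : Met 3) : V → V := nrm h (w1 h)
def w2 (h : Met 3) (y : V) : V := e 2 - h y (e 2) (u0 h y) • u0 h y - h y (e 2) (u1 h y) • u1 h y
def u2 (h : Met 3) : V → V := nrm h (w2 h)

theorem e0_ne : e 0 ≠ 0 := fun H => by simpa [e] using congrArg (fun v : V => v 0) H

theorem w1_ne (y : V) : w1 h y ≠ 0 := fun H => by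
  simpa [w1, u0, nrm, e] using congrArg (fun v : V => v 1) H

theorem w2_ne (y : V) : w2 h y ≠ 0 := fun H => by
  simpa [w2, u1, w1, u0, nrm, e] using congrArg (fun v : V => v 2) H

theorem u0_c2 (r : Riem h) : ContDiff ℝ 2 (u0 h) := nrm_c2 r contDiff_const fun _ => e0_ne

theorem u1_c2 (r : Riem h) : ContDiff ℝ 2 (u1 h) :=
  nrm_c2 r (contDiff_const.sub (((r.smooth.clm_apply contDiff_const).clm_apply (u0_c2 r)).smul
    (u0_c2 r))) w1_ne

theorem u2_c2 (r : Riem h) : ContDiff ℝ 2 (u2 h) :=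
  nrm_c2 r ((contDiff_const.sub (((r.smooth.clm_apply contDiff_const).clm_apply (u0_c2 r)).smul
    (u0_c2 r))).sub (((r.smooth.clm_apply contDiff_const).clm_apply (u1_c2 r)).smul
    (u1_c2 r))) w2_ne

/-- The frame vectors. -/
def uu (h : Met 3) (i : Fin 3) : V → V := ![u0 h, u1 h, u2 h] i

theorem uu_c2 (r : Riem h) (i : Fin 3) : ContDiff ℝ 2 (uu h i) := by
  fin_cases i
  exacts [u0_c2 r, u1_c2 r, u2_c2 r]

theorem uu_orth (r : Riem h) (y : V) (i j : Fin 3) :
    h y (uu h i y) (uu h j y) = if i = j then 1 else 0 := by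
  have a00 : h y (u0 h y) (u0 h y) = 1 := nrm_one r e0_ne
  have a11 : h y (u1 h y) (u1 h y) = 1 := nrm_one r (w1_ne y)
  have a22 : h y (u2 h y) (u2 h y) = 1 := nrm_one r (w2_ne y)
  have a10 : h y (u1 h y) (u0 h y) = 0 := nrm_orth (by simp [w1, a00])
  have a01 : h y (u0 h y) (u1 h y) = 0 := (r.symm _ _ _).trans a10
  have a20 : h y (u2 h y) (u0 h y) = 0 := nrm_orth (by simp [w2, a00, a10])
  have a21 : h y (u2 h y) (u1 h y) = 0 := nrm_orth (by simp [w2, a01, a11])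
  have a02 : h y (u0 h y) (u2 h y) = 0 := (r.symm _ _ _).trans a20
  have a12 : h y (u1 h y) (u2 h y) = 0 := (r.symm _ _ _).trans a21
  fin_cases i <;> fin_cases j <;> simp [uu, *]

theorem frame (r : Riem h) : ∃ R S : V → V →L[ℝ] V, ContDiff ℝ 2 R ∧ ContDiff ℝ 2 S ∧
    (∀ y a, S y (R y a) = a) ∧ (∀ y u, R y (S y u) = u) ∧
    ∀ y a b, h y (R y a) (R y b) = ⟪a, b⟫ := by
  let R : V → V →L[ℝ] V := fun y => ∑ i, (EuclideanSpace.proj i : V →L[ℝ] ℝ).smulRight (uu h i y)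
  let S : V → V →L[ℝ] V := fun y => ∑ i, (h y (uu h i y)).smulRight (e i)
  have hR : ∀ y a, R y a = ∑ i, a i • uu h i y := fun y a => by simp [R]
  have hS : ∀ y u, S y u = ∑ i, h y (uu h i y) u • e i := fun y u => by simp [S]
  have SR : ∀ y a, S y (R y a) = a := fun y a => by
    rw [hS, hR]
    ext j
    simp [uu_orth r, e, Pi.single_apply]
  refine ⟨R, S, ?_, ?_, SR, fun y u => ?_, fun y a b => ?_⟩
  · exact ContDiff.sum fun i _ => contDiff_const.smulRight (uu_c2 r i)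
  · exact ContDiff.sum fun i _ => (r.smooth.clm_apply (uu_c2 r i)).smulRight contDiff_const
  · have h1 : (S y : V →ₗ[ℝ] V) * (R y : V →ₗ[ℝ] V) = 1 := LinearMap.ext (SR y)
    exact LinearMap.congr_fun (mul_eq_one_comm.1 h1) u
  · rw [hR, hR]
    simp [uu_orth r, PiLp.inner_apply]

end

end Pool.Agent.MP_3ee8cb_gt.D3.FR
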