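import Pool.Agent.MP_6357da_an.H67.Smooth

/-! The flow of a complete vector field of class `C¹` is jointly of class `C¹`. -/

namespace Pool.Agent.MP_3ee8cb_gt.D3.FR

open Set Filter Topology Metric
open scoped NNReal

variable {W : Type} [NormedAddCommGroup W] [NormedSpace ℝ W] [FiniteDimensional ℝ W]

/-- Uniqueness for bounded solutions on an open interval. -/
theorem uniq_Ioo {v : W → W} (hv : ContDiff ℝ 1 v) {f g : ℝ → W} {T B : ℝ}
    (hf : ∀ t ∈ Ioo (-T) T, HasDerivAt f (v (f t)) t ∧ ‖f t‖ ≤ B)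
    (hg : ∀ t ∈ Ioo (-T) T, HasDerivAt g (v (g t)) t ∧ ‖g t‖ ≤ B) (h0 : f 0 = g 0) :
    ∀ t ∈ Ioo (-T) T, f t = g t := by
  intro t ht
  have : ProperSpace W := FiniteDimensional.proper_real W
  have hT : 0 < T := by linarith [ht.1, ht.2]
  obtain ⟨K, hK⟩ := (hv.locallyLipschitz.locallyLipschitzOn
    (s := closedBall (0 : W) B)).exists_lipschitzOnWith_of_compact (isCompact_closedBall _ _)
  exact ODE_solution_unique_of_mem_Ioo (v := fun _ => v) (s := fun _ => closedBall (0 : W) B)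
    (K := K) (a := -T) (b := T) (t₀ := 0) (fun _ _ => hK) ⟨by linarith, hT⟩
    (fun s hs => ⟨(hf s hs).1, mem_closedBall_zero_iff.2 (hf s hs).2⟩)
    (fun s hs => ⟨(hg s hs).1, mem_closedBall_zero_iff.2 (hg s hs).2⟩) h0 ht

omit [FiniteDimensional ℝ W] in
theorem bdd_of {f f' : ℝ → W} (hf : ∀ t, HasDerivAt f (f' t) t) (T : ℝ) :
    ∃ B : ℝ, 0 ≤ B ∧ ∀ t ∈ Icc (-T) T, ‖f t‖ ≤ B := by
  obtain ⟨B, hB⟩ := (isCompact_Icc (a := -T) (b := T)).exists_bound_of_continuousOn
    (f := f) fun t _ => (hf t).continuousAt.continuousWithinAt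
  exact ⟨max B 0, le_max_right _ _, fun t ht => (hB t ht).trans (le_max_left _ _)⟩

/-- Uniqueness for global solutions. -/
theorem uniq {v : W → W} (hv : ContDiff ℝ 1 v) {f g : ℝ → W}
    (hf : ∀ t, HasDerivAt f (v (f t)) t) (hg : ∀ t, HasDerivAt g (v (g t)) t) (h0 : f 0 = g 0)
    (t : ℝ) : f t = g t := by
  obtain ⟨B, -, hB⟩ := bdd_of hf (|t| + 1)
  obtain ⟨B', -, hB'⟩ := bdd_of hg (|t| + 1)
  exact uniq_Ioo hv (T := |t| + 1) (B := max B B')
    (fun s hs => ⟨hf s, (hB s (Ioo_subset_Icc_self hs)).trans (le_max_left _ _)⟩)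
    (fun s hs => ⟨hg s, (hB' s (Ioo_subset_Icc_self hs)).trans (le_max_right _ _)⟩) h0 t
    (abs_lt.1 (lt_add_one _))

theorem flow_add {v : W → W} (hv : ContDiff ℝ 1 v) {g : ℝ → W → W} (h0 : ∀ x, g 0 x = x)
    (hg : ∀ x t, HasDerivAt (fun s => g s x) (v (g t x)) t) (t s : ℝ) (x : W) :
    g (t + s) x = g t (g s x) :=
  uniq hv (f := fun t => g (t + s) x) (g := fun t => g t (g s x))
    (fun t => (hg x (t + s)).comp_add_const t s) (fun t => hg _ t) (by simp [h0]) t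

/-- The flow of a complete `C¹` field is jointly `C¹`. -/
theorem flow_c1 {v : W → W} (hv : ContDiff ℝ 1 v) {g : ℝ → W → W} (h0 : ∀ x, g 0 x = x)
    (hg : ∀ x t, HasDerivAt (fun s => g s x) (v (g t x)) t) :
    ContDiff ℝ 1 fun p : ℝ × W => g p.1 p.2 := by
  have : ProperSpace W := FiniteDimensional.proper_real W
  have : CompleteSpace W := FiniteDimensional.complete ℝ W
  refine contDiff_iff_contDiffAt.2 fun p₀ => ?_
  set T : ℝ := |p₀.1| + 1 with hT
  obtain ⟨B, hB0, hB⟩ := bdd_of (hg p₀.2) T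
  let b : ContDiffBump (0 : W) := ⟨B + 1, B + 2, by linarith, by linarith⟩
  have hw : ContDiff ℝ 1 fun x => b x • v x := b.contDiff.smul hv
  have hc : HasCompactSupport fun x => b x • v x := b.hasCompactSupport.smul_right
  obtain ⟨K, hK⟩ := ContDiff.lipschitzWith_of_hasCompactSupport hc hw (by simp)
  obtain ⟨C, hC⟩ := hc.exists_bound_of_continuous hw.continuous
  have hC' : ∀ x, ‖b x • v x‖ ≤ (Real.toNNReal C : ℝ≥0) := fun x =>
    (hC x).trans (Real.le_coe_toNNReal C)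
  choose α a0 hα using MP_6357da_an.H67.exists_solution hK hC'
  have hG : ContDiff ℝ 1 fun p : ℝ × W => α p.2 p.1 :=
    MP_6357da_an.H67.contDiff_flow (g := fun t x => α x t) (m := 1) le_rfl hw hK a0 hα
  have hb1 : ∀ x : W, ‖x‖ ≤ B + 1 → b x • v x = v x := fun x hx => by
    rw [b.one_of_mem_closedBall (mem_closedBall_zero_iff.2 hx), one_smul]
  -- along the central orbit
  have e0 : ∀ t ∈ Ioo (-T) T, g t p₀.2 = α p₀.2 t := by
    obtain ⟨B', -, hB'⟩ := bdd_of (hα p₀.2) T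
    refine uniq_Ioo hw (f := fun t => g t p₀.2) (T := T) (B := max B B') (fun s hs => ⟨?_, ?_⟩)
      (fun s hs => ⟨hα _ s, (hB' s (Ioo_subset_Icc_self hs)).trans (le_max_right _ _)⟩)
      ((h0 _).trans (a0 _).symm)
    · rw [hb1 _ ((hB s (Ioo_subset_Icc_self hs)).trans (by linarith))]
      exact hg _ s
    · exact (hB s (Ioo_subset_Icc_self hs)).trans (le_max_left _ _)
  set T' : ℝ := |p₀.1| + 1 / 2 with hT'
  have tube : ∀ᶠ x in 𝓝 p₀.2, ∀ t ∈ Icc (-T') T', ‖α x t‖ < B + 1 := by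
    refine (isCompact_Icc (a := -T') (b := T')).eventually_forall_of_forall_eventually
      fun t ht => ?_
    have h1 : t ∈ Ioo (-T) T := ⟨by linarith [ht.1], by linarith [ht.2]⟩
    have h2 : ContinuousAt (fun z : W × ℝ => ‖α z.1 z.2‖) (p₀.2, t) :=
      (hG.continuous.comp continuous_swap).norm.continuousAt
    refine h2.eventually_lt continuousAt_const ?_
    have := hB t (Ioo_subset_Icc_self h1)
    simp only at this ⊢
    rw [← e0 t h1]
    linarith
  have hnear : ∀ᶠ p : ℝ × W in 𝓝 p₀, p.1 ∈ Ioo (-T') T' :=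
    continuous_fst.continuousAt.eventually_mem
      (Ioo_mem_nhds (by linarith [neg_abs_le p₀.1]) (by linarith [le_abs_self p₀.1]))
  refine hG.contDiffAt.congr_of_eventuallyEq ?_
  filter_upwards [hnear, continuous_snd.continuousAt.eventually tube] with p h1 h2
  obtain ⟨B', -, hB'⟩ := bdd_of (hg p.2) T'
  refine uniq_Ioo hv (f := fun t => g t p.2) (g := α p.2) (T := T') (B := max B' (B + 1))
    (fun s hs => ⟨hg _ s, (hB' s (Ioo_subset_Icc_self hs)).trans (le_max_left _ _)⟩)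
    (fun s hs => ⟨?_, (h2 s (Ioo_subset_Icc_self hs)).le.trans (le_max_right _ _)⟩)
    ((h0 _).trans (a0 _).symm) p.1 h1
  rw [← hb1 _ (h2 s (Ioo_subset_Icc_self hs)).le]
  exact hα _ s

end Pool.Agent.MP_3ee8cb_gt.D3.FR
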